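import Mathlib

/-!
# Subpolynomial growth
-/

namespace Pool.Agent.Q178.DPF

open Filter Topology

theorem asym (C : ℕ) (ε : ℝ) (hε : 0 < ε) : ∀ᶠ t : ℝ in atTop,
    Real.log C + 2 * C * t * Real.log (2 * t) ≤ ε * (t ^ 2 - 2 * t) * Real.log 2 := by
  have h1 : Tendsto (fun t : ℝ => Real.log (2 * t) / t) atTop (𝓝 0) := by
    have h := Real.tendsto_pow_log_div_mul_add_atTop (1 / 2) 0 1 (by norm_num)
    have h2 : Tendsto (fun t : ℝ => 2 * t) atTop atTop :=
      Tendsto.const_mul_atTop (by norm_num) tendsto_id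
    refine (h.comp h2).congr (fun t => ?_)
    simp
  have h2 : Tendsto (fun t : ℝ => 1 / t) atTop (𝓝 0) := by
    simpa using tendsto_inv_atTop_zero (𝕜 := ℝ)
  have hF : Tendsto (fun t : ℝ => Real.log C * (1 / t * (1 / t))
      + 2 * C * (Real.log (2 * t) / t) - ε * Real.log 2 * (1 - 2 * (1 / t))) atTop
      (𝓝 (Real.log C * (0 * 0) + 2 * C * 0 - ε * Real.log 2 * (1 - 2 * 0))) :=
    (((h2.mul h2).const_mul _).add (h1.const_mul _)).sub
      ((tendsto_const_nhds.sub (h2.const_mul _)).const_mul _)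
  have hlim : Real.log C * (0 * 0) + 2 * C * 0 - ε * Real.log 2 * (1 - 2 * 0) < 0 := by
    have : 0 < ε * Real.log 2 := mul_pos hε (Real.log_pos (by norm_num))
    linarith
  filter_upwards [hF.eventually (gt_mem_nhds hlim), eventually_gt_atTop 0] with t ht h0
  have h3 : (Real.log C * (1 / t * (1 / t))
      + 2 * C * (Real.log (2 * t) / t) - ε * Real.log 2 * (1 - 2 * (1 / t))) * t ^ 2
      = Real.log C + 2 * C * t * Real.log (2 * t) - ε * (t ^ 2 - 2 * t) * Real.log 2 := by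
    field_simp
  have h4 := mul_neg_of_neg_of_pos ht (pow_pos h0 2)
  rw [h3] at h4
  linarith

theorem subpoly (C : ℕ) (ε : ℝ) (hε : 0 < ε) : ∀ᶠ N : ℕ in atTop,
    ((C * (2 * Nat.clog 2 N + 1) ^ (C * (Nat.sqrt (Nat.clog 2 N) + 1)) : ℕ) : ℝ)
      ≤ (N : ℝ) ^ ε := by
  have ht : Tendsto (fun N : ℕ => ((Nat.sqrt (Nat.clog 2 N) + 1 : ℕ) : ℝ)) atTop atTop := by
    apply tendsto_natCast_atTop_atTop.comp
    rw [tendsto_atTop]
    intro b
    filter_upwards [eventually_ge_atTop (2 ^ (b * b))] with N hN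
    have h1 : b * b ≤ Nat.clog 2 N := by
      have := Nat.clog_mono_right 2 hN
      rwa [Nat.clog_pow _ _ (by norm_num)] at this
    have h2 : b ≤ Nat.sqrt (Nat.clog 2 N) := Nat.le_sqrt.2 h1
    omega
  filter_upwards [ht.eventually (asym C ε hε), eventually_ge_atTop 2] with N hN hN2
  set n := Nat.clog 2 N with hn
  set t := Nat.sqrt n + 1 with htd
  rcases Nat.eq_zero_or_pos C with hC | hC
  · subst hC
    simp
    positivity
  have hNr : (0 : ℝ) < N := by positivity
  have hlow : (2 : ℝ) ^ ((n : ℝ) - 1) ≤ N := by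
    have h1 := Nat.pow_pred_clog_lt_self (b := 2) (by norm_num) (show 1 < N by omega)
    have h2 : 0 < Nat.clog 2 N := Nat.clog_pos (by norm_num) hN2
    have h3 : ((n : ℝ) - 1) = (((Nat.clog 2 N).pred : ℕ) : ℝ) := by
      rw [Nat.pred_eq_sub_one, Nat.cast_sub h2]; simp [hn]
    rw [h3, Real.rpow_natCast]
    exact_mod_cast h1.le
  have hleft : Real.log ((C * (2 * n + 1) ^ (C * t) : ℕ) : ℝ)
      ≤ Real.log C + 2 * C * t * Real.log (2 * t) := by
    push_cast
    rw [Real.log_mul (by positivity) (by positivity), Real.log_pow]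
    have h1 : Real.log (2 * (n : ℝ) + 1) ≤ 2 * Real.log (2 * t) := by
      have h2 : (2 * (n : ℝ) + 1) ≤ (2 * (t : ℝ)) ^ 2 := by
        have h3 : n < t * t := Nat.lt_succ_sqrt n
        have h4 : 2 * n + 1 ≤ (2 * t) ^ 2 := by nlinarith
        exact_mod_cast h4
      have h5 := Real.log_le_log (by positivity) h2
      rw [Real.log_pow] at h5
      exact_mod_cast h5
    have h6 : ((C * t : ℕ) : ℝ) * Real.log (2 * (n : ℝ) + 1)
        ≤ ((C * t : ℕ) : ℝ) * (2 * Real.log (2 * t)) :=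
      mul_le_mul_of_nonneg_left h1 (by positivity)
    push_cast at h6 ⊢
    linarith
  have hright : ε * ((t : ℝ) ^ 2 - 2 * t) * Real.log 2 ≤ ε * (((n : ℝ) - 1) * Real.log 2) := by
    have h1 : ((t : ℝ) ^ 2 - 2 * t) ≤ (n : ℝ) - 1 := by
      have h2 : Nat.sqrt n * Nat.sqrt n ≤ n := Nat.sqrt_le n
      have h3 : ((Nat.sqrt n : ℕ) : ℝ) * (Nat.sqrt n : ℕ) ≤ n := by exact_mod_cast h2
      rw [htd]
      push_cast
      nlinarith
    have h4 : 0 < Real.log 2 := Real.log_pos (by norm_num)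
    rw [mul_assoc]
    exact mul_le_mul_of_nonneg_left (mul_le_mul_of_nonneg_right h1 h4.le) hε.le
  have hlogN : ((n : ℝ) - 1) * Real.log 2 ≤ Real.log N := by
    rw [← Real.log_rpow (by norm_num)]
    exact Real.log_le_log (by positivity) hlow
  have hfin : Real.log ((C * (2 * n + 1) ^ (C * t) : ℕ) : ℝ) ≤ Real.log ((N : ℝ) ^ ε) := by
    rw [Real.log_rpow hNr]
    calc _ ≤ _ := hleft
      _ ≤ _ := hN
      _ ≤ _ := hright
      _ ≤ ε * Real.log N := mul_le_mul_of_nonneg_left hlogN hε.le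
  exact (Real.log_le_log_iff (by positivity) (by positivity)).1 hfin

end Pool.Agent.Q178.DPF
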