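import Mathlib

/-!
# Matching vectors modulo prime powers

For a prime `p` and a radius `p ^ a` the matrix `[p ^ a ∣ dist (x, y)]`, `x, y` binary words of
length `n`, is modulo `p ^ e` an inner product of two integer vectors of length at most
`(2 n + 1) ^ (p ^ a * p ^ (e - 1))` (Barrington, Beigel, Rudich; Grolmusz).
-/

namespace Pool.Agent.Q178.DPF

open Finset

/-- Lucas: `C (n, p ^ a - 1)` is modulo `p` the indicator of `p ^ a ∣ n + 1`. -/
theorem lucas_ind (p : ℕ) [hp : Fact p.Prime] (a : ℕ) : ∀ n : ℕ,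
    ((n.choose (p ^ a - 1) : ℕ) : ZMod p) = if p ^ a ∣ n + 1 then 1 else 0 := by
  induction a with
  | zero => intro n; simp
  | succ a ih =>
    intro n
    have hp1 : 1 < p := hp.out.one_lt
    have hpos : 0 < p := by omega
    have hpa : 0 < p ^ a := Nat.pow_pos hpos
    have hL := Choose.choose_modEq_choose_mod_mul_choose_div_nat (p := p) (n := n)
      (k := p ^ (a + 1) - 1)
    have hk : p ^ (a + 1) - 1 = (p - 1) + p * (p ^ a - 1) := by
      obtain ⟨m, hm⟩ : ∃ m, p ^ a = m + 1 := ⟨p ^ a - 1, by omega⟩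
      obtain ⟨s, rfl⟩ : ∃ s, p = s + 1 := ⟨p - 1, by omega⟩
      rw [pow_succ, hm]
      have : (m + 1) * (s + 1) = m * (s + 1) + s + 1 := by ring
      rw [this]
      simp
      ring
    have hk1 : (p ^ (a + 1) - 1) % p = p - 1 := by
      rw [hk, Nat.add_mul_mod_self_left, Nat.mod_eq_of_lt (by omega)]
    have hk2 : (p ^ (a + 1) - 1) / p = p ^ a - 1 := by
      rw [hk, Nat.add_mul_div_left _ _ hpos, Nat.div_eq_of_lt (by omega), zero_add]
    rw [hk1, hk2] at hL
    have hc : ((n.choose (p ^ (a + 1) - 1) : ℕ) : ZMod p)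
        = (((n % p).choose (p - 1) * (n / p).choose (p ^ a - 1) : ℕ) : ZMod p) :=
      (ZMod.natCast_eq_natCast_iff _ _ _).2 hL
    rw [hc, Nat.cast_mul, ih (n / p)]
    have hlt : n % p < p := Nat.mod_lt _ hpos
    by_cases h1 : n % p = p - 1
    · rw [h1, Nat.choose_self, Nat.cast_one, one_mul]
      have hn : n + 1 = p * (n / p + 1) := by
        have := Nat.div_add_mod n p
        rw [h1] at this
        have h2 : p * (n / p + 1) = p * (n / p) + p := by ring
        omega
      have hiff : p ^ a ∣ n / p + 1 ↔ p ^ (a + 1) ∣ n + 1 := by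
        rw [hn, pow_succ']
        exact (Nat.mul_dvd_mul_iff_left hpos).symm
      by_cases h3 : p ^ a ∣ n / p + 1
      · rw [if_pos h3, if_pos (hiff.1 h3)]
      · rw [if_neg h3, if_neg (fun h => h3 (hiff.2 h))]
    · have h0 : (n % p).choose (p - 1) = 0 := Nat.choose_eq_zero_of_lt (by omega)
      rw [h0, Nat.cast_zero, zero_mul]
      rw [if_neg]
      intro h
      have hd : p ∣ n + 1 := (dvd_pow_self p (Nat.succ_ne_zero a)).trans h
      have h4 := Nat.div_add_mod n p
      apply h1
      have h5 : (n + 1) % p = 0 := Nat.mod_eq_zero_of_dvd hd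
      have h6 : (n % p + 1) % p = 0 := by
        rw [← h5, Nat.add_mod n 1 p, Nat.add_mod (n % p) 1 p, Nat.mod_mod]
      rcases lt_or_ge (n % p + 1) p with h7 | h7
      · rw [Nat.mod_eq_of_lt h7] at h6; omega
      · omega

/-- The graph of a binary word, a set of size `n` in a ground set of size `2 n`. -/
def gr {n : ℕ} (x : Fin n → Bool) : Finset (Fin n × Bool) :=
  univ.image (fun i => (i, x i))

theorem mem_gr {n : ℕ} (x : Fin n → Bool) (z : Fin n × Bool) : z ∈ gr x ↔ x z.1 = z.2 := by
  unfold gr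
  constructor
  · intro h
    obtain ⟨i, -, rfl⟩ := Finset.mem_image.1 h
    rfl
  · intro h
    exact Finset.mem_image.2 ⟨z.1, mem_univ _, by rw [h]⟩

theorem card_sdiff_eq_zero {n : ℕ} (x y : Fin n → Bool) :
    (gr x \ gr y).card = 0 ↔ x = y := by
  rw [Finset.card_eq_zero, Finset.sdiff_eq_empty_iff_subset]
  constructor
  · intro h
    funext i
    have := h ((mem_gr x (i, x i)).2 rfl)
    exact ((mem_gr y _).1 this).symm
  · rintro rfl
    exact subset_rfl

theorem card_gr_le {n : ℕ} (x y : Fin n → Bool) : (gr x \ gr y).card ≤ n := by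
  calc (gr x \ gr y).card ≤ (gr x).card := Finset.card_le_card Finset.sdiff_subset
    _ ≤ (univ : Finset (Fin n)).card := Finset.card_image_le
    _ = n := by simp

/-- The index set: subsets of size at most `r` of the ground set. -/
abbrev Idx (n r : ℕ) : Type := {A : Finset (Fin n × Bool) // A.card ≤ r}

theorem card_Idx (n r : ℕ) : Fintype.card (Idx n r) ≤ (2 * n + 1) ^ r := by
  classical
  have hs : Function.Surjective (fun f : Fin r → Option (Fin n × Bool) =>
      (⟨(univ.image f).eraseNone, by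
        calc _ ≤ (univ.image f).card := Finset.card_eraseNone_le _
          _ ≤ (univ : Finset (Fin r)).card := Finset.card_image_le
          _ = r := by simp⟩ : Idx n r)) := by
    rintro ⟨A, hA⟩
    obtain ⟨g⟩ : Nonempty (A ↪ Fin r) := by
      apply Function.Embedding.nonempty_of_card_le
      simpa using hA
    refine ⟨fun i => if h : ∃ z : A, g z = i then some (h.choose : Fin n × Bool) else none, ?_⟩
    apply Subtype.ext
    apply Finset.ext
    intro z
    rw [Finset.mem_eraseNone, Finset.mem_image]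
    constructor
    · rintro ⟨i, -, hi⟩
      by_cases h : ∃ z : A, g z = i
      · rw [dif_pos h] at hi
        have : (h.choose : Fin n × Bool) = z := by simpa using hi
        rw [← this]
        exact h.choose.2
      · rw [dif_neg h] at hi
        exact absurd hi (by simp)
    · intro hz
      refine ⟨g ⟨z, hz⟩, mem_univ _, ?_⟩
      have h : ∃ w : A, g w = g ⟨z, hz⟩ := ⟨⟨z, hz⟩, rfl⟩
      rw [dif_pos h]
      have := g.injective h.choose_spec
      rw [this]
  have h1 := Fintype.card_le_of_surjective _ hs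
  calc Fintype.card (Idx n r) ≤ Fintype.card (Fin r → Option (Fin n × Bool)) := h1
    _ = (2 * n + 1) ^ r := by
        rw [Fintype.card_fun, Fintype.card_option, Fintype.card_prod]
        simp [mul_comm]

/-- Left vectors. -/
def uu {n r : ℕ} (x : Fin n → Bool) (A : Idx n r) : ℤ :=
  if A.1 ⊆ gr x then (r.choose A.1.card : ℤ) else 0

/-- Right vectors. -/
def vv {n r : ℕ} (y : Fin n → Bool) (A : Idx n r) : ℤ :=
  if Disjoint A.1 (gr y) then 1 else 0

theorem inner_eq {n r : ℕ} (x y : Fin n → Bool) :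
    ∑ A : Idx n r, uu x A * vv y A = (((gr x \ gr y).card + r).choose r : ℕ) := by
  classical
  have h1 : ∀ A : Idx n r, uu x A * vv y A
      = if A.1 ∈ (gr x \ gr y).powerset then ((r.choose A.1.card : ℕ) : ℤ) else 0 := by
    intro A
    unfold uu vv
    have hiff : A.1 ∈ (gr x \ gr y).powerset ↔ A.1 ⊆ gr x ∧ Disjoint A.1 (gr y) := by
      rw [Finset.mem_powerset, Finset.subset_sdiff]
    by_cases h2 : A.1 ⊆ gr x
    · by_cases h3 : Disjoint A.1 (gr y)
      · rw [if_pos h2, if_pos h3, if_pos (hiff.2 ⟨h2, h3⟩), mul_one]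
      · rw [if_neg h3, if_neg (fun h => h3 (hiff.1 h).2), mul_zero]
    · rw [if_neg h2, if_neg (fun h => h2 (hiff.1 h).1), zero_mul]
  rw [Finset.sum_congr rfl (fun A _ => h1 A)]
  have h2 : ∑ A : Idx n r, (if A.1 ∈ (gr x \ gr y).powerset
        then ((r.choose A.1.card : ℕ) : ℤ) else 0)
      = ∑ A ∈ (gr x \ gr y).powerset, ((r.choose A.card : ℕ) : ℤ) := by
    have h3 : ∑ A : Idx n r, (if A.1 ∈ (gr x \ gr y).powerset
          then ((r.choose A.1.card : ℕ) : ℤ) else 0)
        = ∑ A ∈ (univ : Finset (Finset (Fin n × Bool))).filter (fun A => A.card ≤ r),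
            (if A ∈ (gr x \ gr y).powerset then ((r.choose A.card : ℕ) : ℤ) else 0) := by
      rw [← Finset.sum_subtype_eq_sum_filter]
      refine Finset.sum_congr ?_ (fun _ _ => rfl)
      ext A; simp
    rw [h3, Finset.sum_filter]
    rw [← Finset.sum_filter_add_sum_filter_not univ
      (fun A => A ∈ (gr x \ gr y).powerset)]
    have h4 : ∑ A ∈ (univ : Finset (Finset (Fin n × Bool))).filter
          (fun A => ¬ A ∈ (gr x \ gr y).powerset),
          (if A.card ≤ r then (if A ∈ (gr x \ gr y).powerset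
            then ((r.choose A.card : ℕ) : ℤ) else 0) else 0) = 0 := by
      apply Finset.sum_eq_zero
      intro A hA
      rw [if_neg (Finset.mem_filter.1 hA).2]
      simp
    rw [h4, add_zero]
    have h5 : (univ : Finset (Finset (Fin n × Bool))).filter
        (fun A => A ∈ (gr x \ gr y).powerset) = (gr x \ gr y).powerset := by
      ext A; simp
    rw [h5]
    refine Finset.sum_congr rfl (fun A hA => ?_)
    rw [if_pos hA]
    by_cases h6 : A.card ≤ r
    · rw [if_pos h6]
    · rw [if_neg h6, Nat.choose_eq_zero_of_lt (by omega)]; simp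
  rw [h2]
  have h7 : ∑ A ∈ (gr x \ gr y).powerset, r.choose A.card
      = ∑ m ∈ range ((gr x \ gr y).card + 1), (gr x \ gr y).card.choose m • r.choose m :=
    Finset.sum_powerset_apply_card _
  have h8 : ∑ A ∈ (gr x \ gr y).powerset, ((r.choose A.card : ℕ) : ℤ)
      = ((∑ A ∈ (gr x \ gr y).powerset, r.choose A.card : ℕ) : ℤ) := by push_cast; rfl
  rw [h8, h7]
  congr 1
  rw [Nat.add_choose_eq, Finset.Nat.sum_antidiagonal_eq_sum_range_succ
    (fun i j => (gr x \ gr y).card.choose i * r.choose j)]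
  set D := (gr x \ gr y).card
  have h9 : ∀ m, m ≤ r → r.choose (r - m) = r.choose m := fun m hm => Nat.choose_symm hm
  have h10 : ∑ m ∈ range (D + 1), D.choose m • r.choose m
      = ∑ m ∈ range (D + 1 + (r + 1)), D.choose m * r.choose m := by
    symm
    rw [Finset.sum_range_add]
    have : ∑ i ∈ range (r + 1), D.choose (D + 1 + i) * r.choose (D + 1 + i) = 0 := by
      apply Finset.sum_eq_zero
      intro i _
      rw [Nat.choose_eq_zero_of_lt (by omega), zero_mul]
    rw [this, add_zero]
    exact Finset.sum_congr rfl (fun m _ => by rw [smul_eq_mul])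
  have h11 : ∑ m ∈ range r.succ, D.choose m * r.choose (r - m)
      = ∑ m ∈ range (r + 1 + (D + 1)), D.choose m * r.choose m := by
    symm
    rw [Finset.sum_range_add]
    have : ∑ i ∈ range (D + 1), D.choose (r + 1 + i) * r.choose (r + 1 + i) = 0 := by
      apply Finset.sum_eq_zero
      intro i _
      rw [Nat.choose_eq_zero_of_lt (show r < r + 1 + i by omega), mul_zero]
    rw [this, add_zero]
    refine Finset.sum_congr rfl (fun m hm => ?_)
    rw [h9 m (by have := Finset.mem_range.1 hm; omega)]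
  rw [h10, h11, Nat.add_comm (D + 1) (r + 1)]

/-- Matching vectors modulo `p`. -/
theorem inner_mod {n : ℕ} (p : ℕ) [Fact p.Prime] (a : ℕ) (x y : Fin n → Bool) :
    (((∑ A : Idx n (p ^ a - 1), uu x A * vv y A : ℤ)) : ZMod p)
      = if p ^ a ∣ (gr x \ gr y).card then 1 else 0 := by
  rw [inner_eq]
  have hpa : 0 < p ^ a := Nat.pow_pos (Fact.out : p.Prime).pos
  have h := lucas_ind p a ((gr x \ gr y).card + (p ^ a - 1))
  have h2 : (gr x \ gr y).card + (p ^ a - 1) + 1 = (gr x \ gr y).card + p ^ a := by omega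
  rw [h2] at h
  have h3 : p ^ a ∣ (gr x \ gr y).card + p ^ a ↔ p ^ a ∣ (gr x \ gr y).card :=
    (Nat.dvd_add_left (dvd_refl _))
  push_cast at h ⊢
  rw [h]
  by_cases h4 : p ^ a ∣ (gr x \ gr y).card
  · rw [if_pos h4, if_pos (h3.2 h4)]
  · rw [if_neg h4, if_neg (fun h => h4 (h3.1 h))]

/-- Left vectors for a prime power modulus. -/
def up {n r P : ℕ} (x : Fin n → Bool) (A : Fin P → Idx n r) : ℤ := ∏ i, uu x (A i)

/-- Right vectors for a prime power modulus. -/
def vp {n r P : ℕ} (y : Fin n → Bool) (A : Fin P → Idx n r) : ℤ := ∏ i, vv y (A i)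

theorem inner_pow {n r P : ℕ} (x y : Fin n → Bool) :
    ∑ A : Fin P → Idx n r, up x A * vp y A = (∑ A : Idx n r, uu x A * vv y A) ^ P := by
  rw [Fintype.sum_pow]
  refine Finset.sum_congr rfl (fun A _ => ?_)
  unfold up vp
  rw [Finset.prod_mul_distrib]

/-- Matching vectors modulo `p ^ e`. -/
theorem inner_prime_pow {n : ℕ} (p : ℕ) [Fact p.Prime] (a e : ℕ) (x y : Fin n → Bool) :
    ((p ^ e : ℕ) : ℤ) ∣ (∑ A : Fin (p ^ (e - 1)) → Idx n (p ^ a - 1), up x A * vp y A)
      - (if p ^ a ∣ (gr x \ gr y).card then 1 else 0) := by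
  rw [inner_pow]
  rcases Nat.eq_zero_or_pos e with rfl | he
  · simp
  set S : ℤ := ∑ A : Idx n (p ^ a - 1), uu x A * vv y A with hS
  have h := inner_mod p a x y
  have h1 : ((p : ℕ) : ℤ) ∣ S - (if p ^ a ∣ (gr x \ gr y).card then 1 else 0) := by
    rw [← ZMod.intCast_zmod_eq_zero_iff_dvd]
    push_cast
    rw [← hS] at h
    rw [h]
    split_ifs <;> simp
  have h2 := dvd_sub_pow_of_dvd_sub (R := ℤ) (p := p) h1 (e - 1)
  rw [Nat.sub_add_cancel he] at h2
  have h3 : (if p ^ a ∣ (gr x \ gr y).card then (1 : ℤ) else 0) ^ p ^ (e - 1)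
      = (if p ^ a ∣ (gr x \ gr y).card then 1 else 0) := by
    have : p ^ (e - 1) ≠ 0 := (Nat.pow_pos (Fact.out : p.Prime).pos).ne'
    split_ifs
    · simp
    · exact zero_pow this
  rw [h3] at h2
  push_cast
  exact h2

end Pool.Agent.Q178.DPF
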