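import Mathlib

/-!
# Three party schemes with uniform keys

The base scheme: secrets are shared in the replicated form (party `j` holds the shares `j + 1` and
`j + 2`, indices modulo three).  A vector modulo `q` is shared first; the value `r` of a linear form
of its shares at the point `α` is a uniformly random residue which the parties cannot know; the
second shared secret is chosen afterwards, depending on `r`, so as to correct the output.
-/

namespace Pool.Agent.Q178.DPF

open Finset

/-- A three party scheme with key set `K`: the key of each party is a bijective function of the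
randomness. -/
structure Scheme (G X K : Type) [AddCommGroup G] where
  /-- key generation -/
  gen : X → G → K → Fin 3 → K
  /-- each key is uniformly distributed -/
  bij : ∀ i α β, Function.Bijective (fun ω => gen α β ω i)
  /-- evaluation -/
  eval : Fin 3 → K → X → G
  /-- correctness at the point -/
  correct : ∀ α β ω, ∑ i, eval i (gen α β ω i) α = β
  /-- correctness elsewhere -/
  correct' : ∀ α β ω x, x ≠ α → ∑ i, eval i (gen α β ω i) x = 0

section Telescope

variable {G : Type} [AddCommGroup G] {q : ℕ} [NeZero q]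

/-- Partial sums of a function on the residues. -/
def psum (g : ZMod q → G) (y : ZMod q) : G := ∑ t ∈ range (y.val + 1), g (t : ZMod q)

theorem psum_sub (hq : 1 < q) (g : ZMod q → G) (hg : ∑ t, g t = 0) (y : ZMod q) :
    psum g y - psum g (y - 1) = g y := by
  unfold psum
  by_cases hy : y = 0
  · subst hy
    have h1 : ((0 : ZMod q) - 1).val + 1 = q := by
      have : ((0 : ZMod q) - 1) = ((q - 1 : ℕ) : ZMod q) := by
        rw [Nat.cast_sub hq.le]; simp
      rw [this, ZMod.val_natCast, Nat.mod_eq_of_lt (by omega)]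
      omega
    rw [h1]
    have h2 : ∑ t ∈ range q, g (t : ZMod q) = ∑ t : ZMod q, g t := by
      symm
      refine Finset.sum_bij' (fun (a : ZMod q) _ => a.val) (fun (b : ℕ) _ => (b : ZMod q))
        ?_ ?_ ?_ ?_ ?_
      · intro a _; exact Finset.mem_range.2 (ZMod.val_lt a)
      · intro b _; exact mem_univ _
      · intro a _; exact ZMod.natCast_zmod_val a
      · intro b hb; exact ZMod.val_cast_of_lt (Finset.mem_range.1 hb)
      · intro a _; rw [ZMod.natCast_zmod_val a]
    rw [h2, hg]
    simp
  · have hv : y.val ≠ 0 := fun h => hy ((ZMod.val_eq_zero y).1 h)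
    have h1 : (y - 1).val = y.val - 1 := by
      have h3 : (y - 1) = ((y.val - 1 : ℕ) : ZMod q) := by
        rw [Nat.cast_sub (by omega), ZMod.natCast_zmod_val, Nat.cast_one]
      rw [h3, ZMod.val_natCast, Nat.mod_eq_of_lt]
      have := ZMod.val_lt y
      omega
    rw [h1, Finset.sum_range_succ _ y.val]
    have h2 : y.val - 1 + 1 = y.val := by omega
    rw [h2]
    simp

end Telescope

/-- Zero-sum functions on the residues. -/
def ZS (q : ℕ) [NeZero q] (G : Type) [AddCommGroup G] : AddSubgroup (ZMod q → G) where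
  carrier := {h | ∑ t, h t = 0}
  zero_mem' := by simp
  add_mem' := by
    intro a b ha hb
    simp only [Set.mem_ofPred_eq, Pi.add_apply] at *
    rw [Finset.sum_add_distrib, ha, hb, add_zero]
  neg_mem' := by
    intro a ha
    simp only [Set.mem_ofPred_eq, Pi.neg_apply] at *
    rw [Finset.sum_neg_distrib, ha, neg_zero]

section Base

variable {G : Type} [AddCommGroup G] {q : ℕ} [Fact q.Prime]

instance : NeZero q := ⟨(Fact.out : q.Prime).ne_zero⟩

theorem ZS_sum (h : ZS q G) : ∑ t, h.1 t = 0 := h.2

/-- The linear form on the shares of index `i`, of the party which does not hold `i + 1`. -/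
def lin (i : Fin 3) (a t : ZMod q) : ZMod q :=
  (i.val : ZMod q) * a + ((i + 2).val : ZMod q) * t + ((i + 1).val : ZMod q) * (1 - a - t)

/-- The linear form. -/
def lform (a : Fin 3 → ZMod q) : ZMod q := ∑ i, ((i : Fin 3).val : ZMod q) * a i

theorem lin_eq (i : Fin 3) (a : Fin 3 → ZMod q) (ha : ∑ i, a i = 1) :
    lin i (a i) (a (i + 2)) = lform a := by
  rw [Fin.sum_univ_three] at ha
  unfold lin lform
  rw [Fin.sum_univ_three]
  fin_cases i
  · have h : (1 : ZMod q) - a 0 - a 2 = a 1 := by rw [← ha]; ring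
    simp only [Fin.zero_eta, Fin.isValue, Fin.val_zero, Nat.cast_zero, zero_mul, zero_add]
    rw [h]
    simp
    ring
  · have h : (1 : ZMod q) - a 1 - a 0 = a 2 := by rw [← ha]; ring
    have e1 : (1 : Fin 3) + 2 = 0 := rfl
    have e2 : (1 : Fin 3) + 1 = 2 := rfl
    simp only [Fin.mk_one, Fin.isValue, e1, e2]
    rw [h]
    simp
  · have h : (1 : ZMod q) - a 2 - a 1 = a 0 := by rw [← ha]; ring
    have e1 : (2 : Fin 3) + 2 = 1 := rfl
    have e2 : (2 : Fin 3) + 1 = 0 := rfl
    have e3 : (⟨2, by omega⟩ : Fin 3) = 2 := rfl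
    simp only [e3, e1, e2]
    rw [h]
    simp
    ring

theorem lin_bij (hq : 2 < q) (i : Fin 3) (a : ZMod q) : Function.Bijective (lin i a) := by
  have h2 : (2 : ZMod q) ≠ 0 := by
    intro h
    have h' : ((2 : ℕ) : ZMod q) = 0 := by exact_mod_cast h
    rw [ZMod.natCast_eq_zero_iff] at h'
    exact absurd (Nat.le_of_dvd (by norm_num) h') (by omega)
  rw [Finite.injective_iff_bijective.symm]
  intro s t hst
  unfold lin at hst
  fin_cases i
  · simp at hst
    linear_combination hst
  · have e1 : (1 : Fin 3) + 2 = 0 := rfl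
    have e2 : (1 : Fin 3) + 1 = 2 := rfl
    simp only [Fin.mk_one, Fin.isValue, e1, e2] at hst
    simp at hst
    rcases hst with hst | hst
    · linear_combination hst
    · exact absurd hst h2
  · have e1 : (2 : Fin 3) + 2 = 1 := rfl
    have e2 : (2 : Fin 3) + 1 = 0 := rfl
    have e3 : (⟨2, by omega⟩ : Fin 3) = 2 := rfl
    simp only [e3, e1, e2] at hst
    simp at hst
    exact hst

/-- The contribution of the share `i`. -/
def contr (i : Fin 3) (h : ZMod q → G) (a y : ZMod q) : G := psum (fun t => h (lin i a t)) y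

theorem contr_sub (hq : 2 < q) (i : Fin 3) (h : ZS q G) (a y : ZMod q) :
    contr i h.1 a y - contr i h.1 a (y - 1) = h.1 (lin i a y) := by
  unfold contr
  apply psum_sub (by omega)
  rw [(lin_bij hq i a).sum_comp h.1]
  exact ZS_sum h

variable {X κ κ' : Type} [Fintype κ] [Fintype κ']

/-- The correcting function: zero-sum, with value `β` at `r`. -/
def corr (r : ZMod q) (β : G) : ZS q G :=
  ⟨fun t => (if t = r then β else 0) - (if t = r + 1 then β else 0), by
    change ∑ t, _ = 0
    rw [Finset.sum_sub_distrib]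
    simp⟩

theorem corr_apply (r : ZMod q) (β : G) : (corr r β).1 r = β := by
  unfold corr
  have : r ≠ r + 1 := by
    intro h
    have h1 : (1 : ZMod q) = 0 := by
      have := congrArg (fun z => z - r) h
      simp at this
    exact one_ne_zero h1
  simp [this]

/-- Keys. -/
abbrev Key (q : ℕ) [NeZero q] (G κ κ' : Type) [AddCommGroup G] : Type :=
  (κ → ZS q G) × (κ → ZS q G) × (κ' → ZMod q) × (κ' → ZMod q)

/-- The three shares with given sum. -/
def shares {A : Type} [AddCommGroup A] (s a b : A) : Fin 3 → A := ![a, b, s - a - b]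

theorem shares_sum {A : Type} [AddCommGroup A] (s a b : A) : ∑ i, shares s a b i = s := by
  rw [Fin.sum_univ_three]
  simp [shares]

/-- Value of the form at a point. -/
def rval (u v : κ' → ZMod q) (a b : κ' → ZMod q) : ZMod q :=
  lform (fun i => ∑ B, u B * shares v a b i B)

/-- Key generation. -/
def bgen (uq vq : X → κ' → ZMod q) (vp : X → κ → ℤ) (α : X) (β : G)
    (ω : Key q G κ κ') (j : Fin 3) : Key q G κ κ' :=
  let Z := shares (vq α) ω.2.2.1 ω.2.2.2
  let lam : κ → ZS q G := fun A => vp α A • corr (rval (uq α) (vq α) ω.2.2.1 ω.2.2.2) β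
  let L := shares lam ω.1 ω.2.1
  (L (j + 1), L (j + 2), Z (j + 1), Z (j + 2))

/-- Evaluation. -/
def beval (uq : X → κ' → ZMod q) (up : X → κ → ℤ) (j : Fin 3) (k : Key q G κ κ') (x : X) : G :=
  contr (j + 2) (∑ A, up x A • k.2.1 A : ZS q G).1 (∑ B, uq x B * k.2.2.2 B)
      (∑ B, uq x B * k.2.2.1 B)
    - contr (j + 1) (∑ A, up x A • k.1 A : ZS q G).1 (∑ B, uq x B * k.2.2.1 B)
      (-(∑ B, uq x B * k.2.2.1 B) - (∑ B, uq x B * k.2.2.2 B))

theorem beval_sum (hq : 2 < q) (uq vq : X → κ' → ZMod q) (up vp : X → κ → ℤ) (α : X) (β : G)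
    (ω : Key q G κ κ') (x : X) :
    ∑ j, beval uq up j (bgen uq vq vp α β ω j) x
      = if ∑ B, uq x B * vq α B = 1 then
          ((∑ A, up x A * vp α A) •
            corr (rval (uq α) (vq α) ω.2.2.1 ω.2.2.2) β : ZS q G).1
            (rval (uq x) (vq α) ω.2.2.1 ω.2.2.2)
        else if ∑ B, uq x B * vq α B = 0 then 0
        else ∑ j, beval uq up j (bgen uq vq vp α β ω j) x := by
  set Z := shares (vq α) ω.2.2.1 ω.2.2.2 with hZ
  set lam : κ → ZS q G := fun A => vp α A • corr (rval (uq α) (vq α) ω.2.2.1 ω.2.2.2) β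
    with hlam
  set L := shares lam ω.1 ω.2.1 with hL
  set a : Fin 3 → ZMod q := fun i => ∑ B, uq x B * Z i B with ha
  set h : Fin 3 → ZS q G := fun i => ∑ A, up x A • L i A with hh
  have hsum : ∑ i, a i = ∑ B, uq x B * vq α B := by
    rw [ha, Finset.sum_comm]
    refine Finset.sum_congr rfl (fun B _ => ?_)
    rw [← Finset.mul_sum]
    congr 1
    have := congrFun (shares_sum (vq α) ω.2.2.1 ω.2.2.2) B
    rw [Finset.sum_apply] at this
    exact this
  have hhsum : ∑ i, h i = (∑ A, up x A * vp α A) •
      corr (rval (uq α) (vq α) ω.2.2.1 ω.2.2.2) β := by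
    rw [hh, Finset.sum_comm, Finset.sum_smul]
    refine Finset.sum_congr rfl (fun A _ => ?_)
    rw [← Finset.smul_sum, mul_smul]
    congr 1
    have := congrFun (shares_sum lam ω.1 ω.2.1) A
    rw [Finset.sum_apply] at this
    exact this
  have hev : ∀ j : Fin 3, beval uq up j (bgen uq vq vp α β ω j) x
      = contr (j + 2) (h (j + 2)).1 (a (j + 2)) (a (j + 1))
        - contr (j + 1) (h (j + 1)).1 (a (j + 1)) (-(a (j + 1)) - a (j + 2)) := fun j => rfl
  have e01 : (0 : Fin 3) + 1 = 1 := rfl
  have e02 : (0 : Fin 3) + 2 = 2 := rfl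
  have e11 : (1 : Fin 3) + 1 = 2 := rfl
  have e12 : (1 : Fin 3) + 2 = 0 := rfl
  have e21 : (2 : Fin 3) + 1 = 0 := rfl
  have e22 : (2 : Fin 3) + 2 = 1 := rfl
  have hre : ∑ j, beval uq up j (bgen uq vq vp α β ω j) x
      = ∑ i : Fin 3, (contr i (h i).1 (a i) (a (i + 2))
        - contr i (h i).1 (a i) (-(a i) - a (i + 1))) := by
    rw [Finset.sum_congr rfl (fun j _ => hev j), Fin.sum_univ_three, Fin.sum_univ_three]
    simp only [e01, e02, e11, e12, e21, e22]
    abel
  split_ifs with h1 h0
  · rw [hre, ← hhsum]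
    rw [← hsum] at h1
    have hterm : ∀ i : Fin 3, contr i (h i).1 (a i) (a (i + 2))
        - contr i (h i).1 (a i) (-(a i) - a (i + 1)) = (h i).1 (lform a) := by
      intro i
      have h3 : -(a i) - a (i + 1) = a (i + 2) - 1 := by
        have h4 : a i + a (i + 1) + a (i + 2) = 1 := by
          rw [Fin.sum_univ_three] at h1
          fin_cases i
          · simpa using h1
          · have : a 1 + a 2 + a 0 = 1 := by rw [← h1]; ring
            simpa [e11, e12] using this
          · have : a 2 + a 0 + a 1 = 1 := by rw [← h1]; ring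
            exact this
        linear_combination -h4
      rw [h3, contr_sub hq, lin_eq i a h1]
    rw [Finset.sum_congr rfl (fun i _ => hterm i)]
    have h5 : ((∑ i, h i : ZS q G)).1 (lform a) = ∑ i, (h i).1 (lform a) := by
      rw [AddSubgroup.val_finsetSum, Finset.sum_apply]
    rw [← h5]
    rfl
  · rw [hre]
    rw [← hsum] at h0
    apply Finset.sum_eq_zero
    intro i _
    have h3 : -(a i) - a (i + 1) = a (i + 2) := by
      have h4 : a i + a (i + 1) + a (i + 2) = 0 := by
        rw [Fin.sum_univ_three] at h0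
        fin_cases i
        · simpa using h0
        · have : a 1 + a 2 + a 0 = 0 := by rw [← h0]; ring
          simpa [e11, e12] using this
        · have : a 2 + a 0 + a 1 = 0 := by rw [← h0]; ring
          exact this
      linear_combination -h4
    rw [h3, sub_self]
  · rfl

theorem shares_rec {A : Type} [AddCommGroup A] {s a b a' b' : A} {j : Fin 3}
    (h1 : shares s a b (j + 1) = shares s a' b' (j + 1))
    (h2 : shares s a b (j + 2) = shares s a' b' (j + 2)) : a = a' ∧ b = b' := by
  fin_cases j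
  · simp only [shares] at h1 h2
    have e1 : b = b' := h1
    have e2 : s - a - b = s - a' - b' := h2
    subst e1
    refine ⟨?_, rfl⟩
    have := congrArg (fun z => s - b - z) e2
    have e3 : s - b - (s - a - b) = a := by abel
    have e4 : s - b - (s - a' - b) = a' := by abel
    rw [e3, e4] at this
    exact this
  · have e2 : s - a - b = s - a' - b' := h1
    have e1 : a = a' := h2
    subst e1
    refine ⟨rfl, ?_⟩
    have := congrArg (fun z => s - a - z) e2
    have e3 : s - a - (s - a - b) = b := by abel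
    have e4 : s - a - (s - a - b') = b' := by abel
    rw [e3, e4] at this
    exact this
  · have e1 : a = a' := h1
    have e2 : b = b' := h2
    exact ⟨e1, e2⟩

omit [Fintype κ] in
theorem bgen_inj (uq vq : X → κ' → ZMod q) (vp : X → κ → ℤ) (α : X) (β : G)
    (j : Fin 3) : Function.Injective (fun ω : Key q G κ κ' => bgen uq vq vp α β ω j) := by
  rintro ⟨A, B, C, D⟩ ⟨A', B', C', D'⟩ h
  simp only [bgen, Prod.mk.injEq] at h
  obtain ⟨h1, h2, h3, h4⟩ := h
  obtain ⟨rfl, rfl⟩ := shares_rec h3 h4
  obtain ⟨rfl, rfl⟩ := shares_rec h1 h2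
  rfl

/-- The base scheme. -/
theorem base_scheme [Finite G] (hq : 2 < q) (n : ℕ) (hn : ∀ g : G, n • g = 0)
    (uq vq : X → κ' → ZMod q) (up vp : X → κ → ℤ)
    (h1 : ∀ x y, ∑ B, uq x B * vq y B = 0 ∨ (∑ B, uq x B * vq y B = 1 ∧
      (x ≠ y → (n : ℤ) ∣ ∑ A, up x A * vp y A)))
    (h2 : ∀ x, ∑ B, uq x B * vq x B = 1 ∧ (n : ℤ) ∣ (∑ A, up x A * vp x A) - 1) :
    Nonempty (Scheme G X (Key q G κ κ')) := by
  have hz : ∀ (z : ℤ) (f : ZS q G), (n : ℤ) ∣ z → z • f = 0 := by
    rintro z f ⟨w, rfl⟩
    apply Subtype.ext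
    funext t
    have : ((((n : ℤ) * w) • f : ZS q G)).1 t = ((n : ℤ) * w) • f.1 t := rfl
    rw [this, mul_comm, mul_smul, natCast_zsmul, hn, smul_zero]
    rfl
  have : Finite (Key q G κ κ') := inferInstance
  refine ⟨⟨fun α β ω i => bgen uq vq vp α β ω i, ?_, fun j k x => beval uq up j k x, ?_, ?_⟩⟩
  · intro i α β
    exact Finite.injective_iff_bijective.1 (bgen_inj uq vq vp α β i)
  · intro α β ω
    rw [beval_sum hq, if_pos (h2 α).1]
    have h3 : (∑ A, up α A * vp α A) • corr (rval (uq α) (vq α) ω.2.2.1 ω.2.2.2) β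
        = corr (rval (uq α) (vq α) ω.2.2.1 ω.2.2.2) β := by
      have h4 := hz _ (corr (rval (uq α) (vq α) ω.2.2.1 ω.2.2.2) β) (h2 α).2
      rw [sub_smul, one_smul, sub_eq_zero] at h4
      exact h4
    rw [h3, corr_apply]
  · intro α β ω x hx
    rw [beval_sum hq]
    rcases h1 x α with h0 | ⟨h0, h3⟩
    · rw [if_neg (by rw [h0]; exact zero_ne_one), if_pos h0]
    · rw [if_pos h0, hz _ _ (h3 hx)]
      rfl

end Base

end Pool.Agent.Q178.DPF
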