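import Pool.Agent.Q178.DPF.MV
import Pool.Agent.Q178.DPF.Scheme

/-!
# Products, restriction, transport of schemes, and the size of the keys
-/

namespace Pool.Agent.Q178.DPF

open Finset

/-- Transport along a group isomorphism. -/
def Scheme.congr {G G' X K : Type} [AddCommGroup G] [AddCommGroup G'] (e : G ≃+ G')
    (S : Scheme G' X K) : Scheme G X K where
  gen α β := S.gen α (e β)
  bij i α β := S.bij i α (e β)
  eval i k x := e.symm (S.eval i k x)
  correct α β ω := by
    rw [← map_sum, S.correct]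
    simp
  correct' α β ω x hx := by
    rw [← map_sum, S.correct' α _ ω x hx]
    simp

/-- Restriction to a subset of the domain. -/
def Scheme.restrict {G X Y K : Type} [AddCommGroup G] (f : Y → X) (hf : Function.Injective f)
    (S : Scheme G X K) : Scheme G Y K where
  gen α β := S.gen (f α) β
  bij i α β := S.bij i (f α) β
  eval i k x := S.eval i k (f x)
  correct α β ω := S.correct (f α) β ω
  correct' α β ω x hx := S.correct' (f α) β ω (f x) (fun h => hx (hf h))

/-- Products. -/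
def Scheme.pi {ι : Type} {G K : ι → Type} {X : Type} [∀ i, AddCommGroup (G i)]
    (S : ∀ i, Scheme (G i) X (K i)) : Scheme (∀ i, G i) X (∀ i, K i) where
  gen α β ω j := fun i => (S i).gen α (β i) (ω i) j
  bij j α β := by
    constructor
    · intro ω ω' h
      funext i
      exact ((S i).bij j α (β i)).1 (congrFun h i)
    · intro k
      choose ω hω using fun i => ((S i).bij j α (β i)).2 (k i)
      exact ⟨ω, funext hω⟩
  eval j k x := fun i => (S i).eval j (k i) x
  correct α β ω := by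
    funext i
    rw [Finset.sum_apply]
    exact (S i).correct α (β i) (ω i)
  correct' α β ω x hx := by
    funext i
    rw [Finset.sum_apply]
    exact (S i).correct' α (β i) (ω i) x hx

theorem two_pow_bound (n m : ℕ) (h : m ≤ n) : m ≤ 2 ^ n := h.trans (Nat.lt_two_pow_self).le

/-- The scheme for cyclic groups of prime power order, with the size of its keys. -/
theorem prime_power_scheme (p e q : ℕ) [Fact p.Prime] [Fact q.Prime] (hpq : p ≠ q) (hq : 2 < q)
    (n a b : ℕ) (hab : n < p ^ a * q ^ b) :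
    ∃ K : Type, ∃ (_ : Finite K) (_ : Nonempty K),
      Nonempty (Scheme (ZMod (p ^ e)) (Fin n → Bool) K) ∧
      Nat.card K ≤ 2 ^ (2 * (q * (p ^ e) * (2 * n + 1) ^ (p ^ a * p ^ (e - 1)))
        + 2 * (q * (2 * n + 1) ^ (q ^ b))) := by
  classical
  have : NeZero (p ^ e) := ⟨(Nat.pow_pos (Fact.out : p.Prime).pos).ne'⟩
  set κ := Fin (p ^ (e - 1)) → Idx n (p ^ a - 1) with hκ
  set κ' := Idx n (q ^ b - 1) with hκ'
  refine ⟨Key q (ZMod (p ^ e)) κ κ', inferInstance, inferInstance, ?_, ?_⟩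
  · apply base_scheme (X := Fin n → Bool) hq (p ^ e) (fun g => by
      rw [nsmul_eq_mul, ZMod.natCast_self, zero_mul])
      (fun x A => ((uu x A : ℤ) : ZMod q)) (fun y A => ((vv y A : ℤ) : ZMod q))
      (fun x A => up x A) (fun y A => vp y A)
    · intro x y
      have h1 : ∑ B : κ', ((uu x B : ℤ) : ZMod q) * ((vv y B : ℤ) : ZMod q)
          = if q ^ b ∣ (gr x \ gr y).card then 1 else 0 := by
        rw [← inner_mod q b x y]
        push_cast
        rfl
      rw [h1]
      by_cases hd : q ^ b ∣ (gr x \ gr y).card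
      · right
        refine ⟨if_pos hd, fun hxy => ?_⟩
        have h2 := inner_prime_pow p a e x y
        rw [if_neg, sub_zero] at h2
        · exact h2
        · intro hd'
          have hcop : Nat.Coprime (p ^ a) (q ^ b) := Nat.Coprime.pow _ _
            ((Nat.coprime_primes (Fact.out : p.Prime) (Fact.out : q.Prime)).2 hpq)
          have h3 : p ^ a * q ^ b ∣ (gr x \ gr y).card :=
            Nat.Coprime.mul_dvd_of_dvd_of_dvd hcop hd' hd
          have h4 : (gr x \ gr y).card ≠ 0 := fun h => hxy ((card_sdiff_eq_zero x y).1 h)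
          have h5 := Nat.le_of_dvd (Nat.pos_of_ne_zero h4) h3
          have h6 := card_gr_le x y
          omega
      · left
        exact if_neg hd
    · intro x
      have h0 : (gr x \ gr x).card = 0 := by simp
      have h1 : ∑ B : κ', ((uu x B : ℤ) : ZMod q) * ((vv x B : ℤ) : ZMod q)
          = if q ^ b ∣ (gr x \ gr x).card then 1 else 0 := by
        rw [← inner_mod q b x x]
        push_cast
        rfl
      have h2 := inner_prime_pow p a e x x
      rw [h0, if_pos (dvd_zero _)] at h2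
      rw [h1, h0, if_pos (dvd_zero _)]
      exact ⟨rfl, h2⟩
  · have hM : Nat.card (ZS q (ZMod (p ^ e))) ≤ 2 ^ (q * p ^ e) := by
      calc Nat.card (ZS q (ZMod (p ^ e))) ≤ Nat.card (ZMod q → ZMod (p ^ e)) :=
            Nat.card_le_card_of_injective _ Subtype.val_injective
        _ = (p ^ e) ^ q := by
            rw [Nat.card_fun, Nat.card_zmod, Nat.card_zmod]
        _ ≤ (2 ^ (p ^ e)) ^ q := Nat.pow_le_pow_left (two_pow_bound _ _ le_rfl) _
        _ = 2 ^ (q * p ^ e) := by rw [← pow_mul, mul_comm]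
    have hc1 : Nat.card κ ≤ (2 * n + 1) ^ (p ^ a * p ^ (e - 1)) := by
      rw [hκ, Nat.card_fun, Nat.card_eq_fintype_card, Nat.card_eq_fintype_card,
        Fintype.card_fin]
      calc Fintype.card (Idx n (p ^ a - 1)) ^ p ^ (e - 1)
          ≤ ((2 * n + 1) ^ (p ^ a - 1)) ^ p ^ (e - 1) :=
            Nat.pow_le_pow_left (card_Idx _ _) _
        _ = (2 * n + 1) ^ ((p ^ a - 1) * p ^ (e - 1)) := by rw [← pow_mul]
        _ ≤ (2 * n + 1) ^ (p ^ a * p ^ (e - 1)) := by
            apply Nat.pow_le_pow_right (by omega)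
            exact Nat.mul_le_mul_right _ (Nat.sub_le _ _)
    have hc2 : Nat.card κ' ≤ (2 * n + 1) ^ (q ^ b) := by
      rw [hκ', Nat.card_eq_fintype_card]
      exact (card_Idx _ _).trans (Nat.pow_le_pow_right (by omega) (Nat.sub_le _ _))
    have h1 : Nat.card (κ → ZS q (ZMod (p ^ e)))
        ≤ 2 ^ (q * (p ^ e) * (2 * n + 1) ^ (p ^ a * p ^ (e - 1))) := by
      rw [Nat.card_fun]
      calc Nat.card (ZS q (ZMod (p ^ e))) ^ Nat.card κ
          ≤ (2 ^ (q * p ^ e)) ^ Nat.card κ := Nat.pow_le_pow_left hM _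
        _ ≤ (2 ^ (q * p ^ e)) ^ ((2 * n + 1) ^ (p ^ a * p ^ (e - 1))) :=
            Nat.pow_le_pow_right (Nat.pow_pos (by norm_num)) hc1
        _ = _ := by rw [← pow_mul]
    have h2 : Nat.card (κ' → ZMod q) ≤ 2 ^ (q * (2 * n + 1) ^ (q ^ b)) := by
      rw [Nat.card_fun, Nat.card_zmod]
      calc q ^ Nat.card κ' ≤ (2 ^ q) ^ Nat.card κ' :=
            Nat.pow_le_pow_left (two_pow_bound _ _ le_rfl) _
        _ ≤ (2 ^ q) ^ ((2 * n + 1) ^ (q ^ b)) :=
            Nat.pow_le_pow_right (Nat.pow_pos (by norm_num)) hc2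
        _ = _ := by rw [← pow_mul]
    unfold Key
    rw [Nat.card_prod, Nat.card_prod, Nat.card_prod]
    calc _ ≤ 2 ^ (q * (p ^ e) * (2 * n + 1) ^ (p ^ a * p ^ (e - 1)))
          * (2 ^ (q * (p ^ e) * (2 * n + 1) ^ (p ^ a * p ^ (e - 1)))
          * (2 ^ (q * (2 * n + 1) ^ (q ^ b)) * 2 ^ (q * (2 * n + 1) ^ (q ^ b)))) :=
          Nat.mul_le_mul h1 (Nat.mul_le_mul h1 (Nat.mul_le_mul h2 h2))
      _ = _ := by
          rw [← pow_add, ← pow_add, ← pow_add]
          ring

/-- Choice of the exponent: `sqrt n < p ^ a ≤ p (sqrt n + 1)`. -/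
theorem exists_exp (p s : ℕ) (hp : 1 < p) : ∃ a, s + 1 ≤ p ^ a ∧ p ^ a ≤ p * (s + 1) := by
  refine ⟨Nat.clog p (s + 1), Nat.le_pow_clog hp _, ?_⟩
  rcases Nat.eq_zero_or_pos s with rfl | hs
  · simp; omega
  · have h1 := Nat.pow_pred_clog_lt_self hp (show 1 < s + 1 by omega)
    have h2 : 0 < Nat.clog p (s + 1) := Nat.clog_pos hp (by omega)
    have h3 : p ^ Nat.clog p (s + 1) = p * p ^ (Nat.clog p (s + 1)).pred := by
      rw [← pow_succ', Nat.pred_eq_sub_one, Nat.sub_add_cancel h2]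
    rw [h3]
    exact Nat.mul_le_mul_left _ h1.le

/-- The scheme for cyclic groups of prime power order. -/
theorem cyclic_scheme (p e : ℕ) [hp : Fact p.Prime] : ∃ C : ℕ, ∀ n : ℕ,
    ∃ K : Type, ∃ (_ : Finite K) (_ : Nonempty K),
      Nonempty (Scheme (ZMod (p ^ e)) (Fin n → Bool) K) ∧
      Nat.card K ≤ 2 ^ (C * (2 * n + 1) ^ (C * (Nat.sqrt n + 1))) := by
  obtain ⟨q, hqp, hpq, hq2⟩ : ∃ q : ℕ, q.Prime ∧ p ≠ q ∧ 2 < q := by
    by_cases h : p = 3
    · exact ⟨5, by norm_num, by omega, by norm_num⟩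
    · exact ⟨3, by norm_num, h, by norm_num⟩
  have : Fact q.Prime := ⟨hqp⟩
  refine ⟨2 * (q * p ^ e) + 2 * q + p * p ^ (e - 1) + q, fun n => ?_⟩
  obtain ⟨a, ha1, ha2⟩ := exists_exp p (Nat.sqrt n) hp.out.one_lt
  obtain ⟨b, hb1, hb2⟩ := exists_exp q (Nat.sqrt n) (by omega)
  have hab : n < p ^ a * q ^ b :=
    (Nat.lt_succ_sqrt n).trans_le (Nat.mul_le_mul ha1 hb1)
  obtain ⟨K, hK1, hK2, hS, hc⟩ := prime_power_scheme p e q hpq hq2 n a b hab
  refine ⟨K, hK1, hK2, hS, hc.trans ?_⟩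
  apply Nat.pow_le_pow_right (by norm_num)
  set C := 2 * (q * p ^ e) + 2 * q + p * p ^ (e - 1) + q with hC
  have h1 : p ^ a * p ^ (e - 1) ≤ C * (Nat.sqrt n + 1) := by
    calc p ^ a * p ^ (e - 1) ≤ (p * (Nat.sqrt n + 1)) * p ^ (e - 1) :=
          Nat.mul_le_mul_right _ ha2
      _ = (p * p ^ (e - 1)) * (Nat.sqrt n + 1) := by ring
      _ ≤ C * (Nat.sqrt n + 1) := Nat.mul_le_mul_right _ (by omega)
  have h2 : q ^ b ≤ C * (Nat.sqrt n + 1) :=
    hb2.trans (Nat.mul_le_mul_right _ (by omega))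
  have h3 : (2 * n + 1) ^ (p ^ a * p ^ (e - 1)) ≤ (2 * n + 1) ^ (C * (Nat.sqrt n + 1)) :=
    Nat.pow_le_pow_right (by omega) h1
  have h4 : (2 * n + 1) ^ (q ^ b) ≤ (2 * n + 1) ^ (C * (Nat.sqrt n + 1)) :=
    Nat.pow_le_pow_right (by omega) h2
  calc 2 * (q * p ^ e * (2 * n + 1) ^ (p ^ a * p ^ (e - 1))) + 2 * (q * (2 * n + 1) ^ q ^ b)
      ≤ 2 * (q * p ^ e * (2 * n + 1) ^ (C * (Nat.sqrt n + 1)))
        + 2 * (q * (2 * n + 1) ^ (C * (Nat.sqrt n + 1))) :=
        Nat.add_le_add (Nat.mul_le_mul_left _ (Nat.mul_le_mul_left _ h3))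
          (Nat.mul_le_mul_left _ (Nat.mul_le_mul_left _ h4))
    _ = (2 * (q * p ^ e) + 2 * q) * (2 * n + 1) ^ (C * (Nat.sqrt n + 1)) := by ring
    _ ≤ C * (2 * n + 1) ^ (C * (Nat.sqrt n + 1)) := Nat.mul_le_mul_right _ (by omega)

/-- The scheme for every finite abelian group. -/
theorem group_scheme (G : Type) [AddCommGroup G] [Finite G] : ∃ C : ℕ, ∀ N : ℕ,
    ∃ K : Type, ∃ (_ : Finite K) (_ : Nonempty K),
      Nonempty (Scheme G (Fin N) K) ∧
      Nat.card K ≤ 2 ^ (C * (2 * Nat.clog 2 N + 1) ^ (C * (Nat.sqrt (Nat.clog 2 N) + 1))) := by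
  classical
  obtain ⟨ι, hι, p, hp, e, ⟨f⟩⟩ := AddCommGroup.equiv_directSum_zmod_of_finite G
  choose C hC using fun i => @cyclic_scheme (p i) (e i) ⟨hp i⟩
  refine ⟨∑ i, C i, fun N => ?_⟩
  set n := Nat.clog 2 N with hn
  choose K hK1 hK2 hS hcard using fun i => hC i n
  refine ⟨∀ i, K i, inferInstance, inferInstance, ?_, ?_⟩
  · obtain ⟨g⟩ : Nonempty (Fin N ↪ (Fin n → Bool)) := by
      apply Function.Embedding.nonempty_of_card_le
      simp only [Fintype.card_fin, Fintype.card_fun, Fintype.card_bool]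
      exact Nat.le_pow_clog (by norm_num) N
    exact ⟨((Scheme.pi (fun i => (hS i).some)).congr
      (f.trans (DirectSum.addEquivProd _))).restrict g g.injective⟩
  · rw [Nat.card_pi]
    calc ∏ i, Nat.card (K i)
        ≤ ∏ i, 2 ^ (C i * (2 * n + 1) ^ ((∑ i, C i) * (Nat.sqrt n + 1))) := by
          apply Finset.prod_le_prod' 
          intro i _
          refine (hcard i).trans (Nat.pow_le_pow_right (by norm_num)
            (Nat.mul_le_mul_left _ (Nat.pow_le_pow_right (by omega)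
              (Nat.mul_le_mul_right _ ?_))))
          exact Finset.single_le_sum (f := C) (fun _ _ => Nat.zero_le _) (mem_univ i)
      _ = 2 ^ ((∑ i, C i) * (2 * n + 1) ^ ((∑ i, C i) * (Nat.sqrt n + 1))) := by
          rw [Finset.prod_pow_eq_pow_sum]
          congr 1
          exact (Finset.sum_mul _ _ _).symm

end Pool.Agent.Q178.DPF
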